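import Pool.Agent.N987.ZQ.Main

/-!
# MP_943a15_an: `SL_n(R)` for rings in which `-1` is a sum of two squares

`R` is a commutative ring in which `-1` is a sum of two squares, or more generally a commutative
ring for which `SL_2(R)` contains the quaternion group `Q₈` with central involution `-1`; `R` need
not contain a square root of `-1`.  Examples are the rings of integers of `ℚ(√-2)`, `ℚ(√-11)`
(euclidean), of `ℚ(√-5)` and of `ℚ(e^{2πi/3})`, and every ring which contains one of these.  For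
rings of integers of imaginary quadratic fields `SL_n(R)` is a lattice in `SL_n(ℂ)`, for which
`v(G) = 2 n - 2`, while the known results stop at `dim M < n - 1`.  We prove that `SL_n(R)` acts
through a finite group on closed manifolds `M` of odd Euler characteristic with `dim M < 2 n - 2`
for odd `n` (the full range) and `dim M < 2 n - 4` for even `n`.
-/

set_option autoImplicit false

namespace Pool.Agent.Results.MP_943a15_an.SumOfTwoSquares

open scoped Manifold ContDiff
open Pool.Agent.H185.ZM Pool.Agent.N987.ZQ Module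

/-- Every normal subgroup is central or has finite index. -/
def NormalSubgroupProperty (Γ : Type) [Group Γ] : Prop :=
  ∀ N : Subgroup Γ, N.Normal → N ≤ Subgroup.center Γ ∨ Finite (Γ ⧸ N)

/-- `x` is an element of order two of the power of the quaternion group of order eight: all entries
are `1` or the central involution, and `x` is not `1`. -/
def IsInvolution {j : ℕ} (x : Fin j → QuaternionGroup 2) : Prop :=
  x ≠ 1 ∧ ∀ i, x i = 1 ∨ x i = QuaternionGroup.a 2

/-- No conjugate in `Γ` of the image of an element of order two of the power of `Q₈` is a central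
element of `Γ'`. -/
def NoneCentral {Γ : Type} [Group Γ] {j : ℕ} (φ : (Fin j → QuaternionGroup 2) →* Γ)
    (Γ' : Subgroup Γ) : Prop :=
  ∀ (x : Fin j → QuaternionGroup 2) (γ : Γ) (h : γ⁻¹ * φ x * γ ∈ Γ'), IsInvolution x →
    (⟨γ⁻¹ * φ x * γ, h⟩ : Γ') ∉ Subgroup.center Γ'

section defs

variable (E : Type) [NormedAddCommGroup E] [NormedSpace ℝ E] [FiniteDimensional ℝ E]
  (M : Type) [TopologicalSpace M] [ChartedSpace E M]

/-- `4 ^ j` does not divide `2 ^ ⌊(dim M) / 2⌋ χ(M) N`. -/
def Small (j N : ℕ) : Prop :=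
  ¬ ((4 : ℤ) ^ j ∣ 2 ^ (finrank ℝ E / 2) * (Pool.Agent.Helper381.eulerChar M * N))

/-- The kernel of `α : Γ' → Diff(M)` contains a conjugate in `Γ` of the image of an element of order
two of the power of `Q₈`. -/
def KernelHasInvolution {Γ : Type} [Group Γ] {j : ℕ} (φ : (Fin j → QuaternionGroup 2) →* Γ)
    (Γ' : Subgroup Γ) (α : Γ' → (M ≃ₘ^∞⟮𝓘(ℝ, E), 𝓘(ℝ, E)⟯ M)) : Prop :=
  ∃ (x : Fin j → QuaternionGroup 2) (γ : Γ) (h : γ⁻¹ * φ x * γ ∈ Γ'), IsInvolution x ∧
    ∀ y, α ⟨γ⁻¹ * φ x * γ, h⟩ y = y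

/-- The statement for groups `Γ` which contain a power of the quaternion group, and their subgroups
`Γ'` of finite index. -/
def PowersOfQ8 : Prop :=
  ∀ (Γ : Type) [Group Γ] (j : ℕ) (φ : (Fin j → QuaternionGroup 2) →* Γ) (Γ' : Subgroup Γ)
    [Finite (Γ ⧸ Γ')], Small E M j Γ'.index →
    ∀ α : Γ' → (M ≃ₘ^∞⟮𝓘(ℝ, E), 𝓘(ℝ, E)⟯ M), IsHom α → KernelHasInvolution E M φ Γ' α ∧
      (NoneCentral φ Γ' → NormalSubgroupProperty Γ' → (Set.range α).Finite)

/-- The conclusions for a homomorphism `α : SL_n(R) → Diff(M)`: (a) there is an ideal `I` of `R`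
of index at most two which contains `2` such that the elementary matrices with entries in `I` act
trivially; (b) the image of `E_n(R)` is finite; (c) `E_n(R)` acts trivially if `n = 4` or
`n ≥ 6`. -/
def Conclusion {R : Type} [CommRing R] {n : ℕ}
    (α : Matrix.SpecialLinearGroup (Fin n) R → (M ≃ₘ^∞⟮𝓘(ℝ, E), 𝓘(ℝ, E)⟯ M)) : Prop :=
  (∃ I : Ideal R, (2 : R) ∈ I ∧ (∀ c, c ∈ I ∨ c - 1 ∈ I) ∧
    ∀ c ∈ I, ∀ (i j : Fin n) (hij : i ≠ j) (x : M), α (el hij c) x = x) ∧
  (α '' {g | g ∈ EE n R}).Finite ∧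
  (n = 4 ∨ 6 ≤ n → ∀ g ∈ EE n R, ∀ x, α g x = x)

/-- The statement for the groups `SL_n(R)`. -/
def SpecialLinear : Prop :=
  ∀ (R : Type) [CommRing R] (u : QuaternionGroup 2 →* Matrix.SpecialLinearGroup (Fin 2) R),
    (u (QuaternionGroup.a 2) : Matrix (Fin 2) (Fin 2) R) = -1 → ∀ n : ℕ, 3 ≤ n →
    Small E M ((n - 1) / 2) 1 →
    ∀ α : Matrix.SpecialLinearGroup (Fin n) R → (M ≃ₘ^∞⟮𝓘(ℝ, E), 𝓘(ℝ, E)⟯ M), IsHom α →
      Conclusion E M α

end defs

variable {E : Type} [NormedAddCommGroup E] [NormedSpace ℝ E] [FiniteDimensional ℝ E]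
  {M : Type} [TopologicalSpace M] [ChartedSpace E M] [IsManifold 𝓘(ℝ, E) ∞ M]

/-- **Special linear groups over rings in which `-1` is a sum of two squares.**  Let `M` be a closed
connected smooth manifold.
(1) Let `Γ` be a group which contains a homomorphic image of the power `Q₈ ^ j` of the quaternion
group of order eight and `Γ'` a subgroup of finite index `N` of `Γ`.  If `4 ^ j` does not divide
`2 ^ ⌊(dim M) / 2⌋ χ(M) N`, then the kernel of every homomorphism `Γ' → Diff(M)` contains a
conjugate of the image of an element of order two of `Q₈ ^ j`; the image is finite if moreover no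
such conjugate is central and `Γ'` has the normal subgroup property.
(2) Let `R` be a commutative ring, `Q₈ → SL_2(R)` a homomorphism which maps the central involution
to `-1`, and `n ≥ 3`.  If `4 ^ ⌊(n - 1) / 2⌋` does not divide `2 ^ ⌊(dim M) / 2⌋ χ(M)`, then for
every homomorphism `SL_n(R) → Diff(M)` the image of `E_n(R)` is finite, and trivial for `n = 4` and
`n ≥ 6`.
(3) There is such a homomorphism `Q₈ → SL_2(R)` if `-1` is a sum of two squares in `R`, and
`E_n(R) = SL_n(R)` for euclidean domains.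
(4) The condition holds if `2 ^ (v + 1)` does not divide `χ(M) N` and `dim M + 2 v < 4 j`; for
instance (`v = 0`) if `χ(M)` is odd and `dim M < 4 ⌊(n - 1) / 2⌋`, that is `dim M < 2 n - 2` for `n`
odd and `dim M < 2 n - 4` for `n` even. -/
theorem result [CompactSpace M] [T2Space M] [ConnectedSpace M] :
    PowersOfQ8 E M ∧ SpecialLinear E M ∧
    (∀ (R : Type) [CommRing R] (x y : R), x * x + y * y = -1 →
      ∃ u : QuaternionGroup 2 →* Matrix.SpecialLinearGroup (Fin 2) R,
        (u (QuaternionGroup.a 2) : Matrix (Fin 2) (Fin 2) R) = -1) ∧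
    (∀ (R : Type) [EuclideanDomain R] (n : ℕ), EE n R = ⊤) ∧
    ∀ j N v : ℕ, ¬ ((2 : ℤ) ^ (v + 1) ∣ Pool.Agent.Helper381.eulerChar M * N) →
      finrank ℝ E + 2 * v < 4 * j → Small E M j N := by
  refine ⟨?_, ?_, fun R _ x y h => exists_quat x y h, fun R _ n => EE_eq_top,
    fun j N v h1 h2 => small_of h1 h2⟩
  · intro Γ _ j φ Γ' _ hs α hα
    obtain ⟨x, γ, hx, h1, h2, h3⟩ := fi φ Γ' hα.action (by rwa [mul_assoc])
    refine ⟨⟨x, γ, hx, ⟨h1, h2⟩, h3⟩, fun hz hNS => hα.finite_range ?_⟩
    rcases hNS (actKer hα.action) inferInstance with h4 | h4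
    · exact absurd (h4 h3) (hz x γ hx ⟨h1, h2⟩)
    · exact h4
  · intro R _ u hu n hn hs α hα
    exact main hn u hu α hα (by
      unfold Small at hs
      rwa [Nat.cast_one, mul_one] at hs)

end Pool.Agent.Results.MP_943a15_an.SumOfTwoSquares
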